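import Pool.Agent.H26.NO.Targets

/-!
# MP_0cd084_nt, board nok_modules, row UB: numbers with many large primes
-/

set_option autoImplicit false

open Finset

namespace Pool.Agent.H84.NO

open Pool.Agent.H26.NO

theorem pf_UB (hAS : T_AS) (hMER : T_MER) (hEP : T_EP) : T_UB := by
  obtain ⟨C, hC0, hC⟩ := hMER
  obtain ⟨x₀, hx₀⟩ := hAS (100 + C)
  refine ⟨x₀, fun x hx => ?_⟩
  obtain ⟨hKx, hl, hle, hes, hs0, hs2, hlogs, hxe, -, -, -⟩ := hx₀ x hx
  set s := sx x with hs
  set e := el x with he
  set l := Real.log e with hldef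
  have hx1 : (1 : ℝ) < x := by linarith
  have hlogx : Real.log x = s ^ 2 := hs2.symm
  have hl100 : 100 ≤ l := by linarith
  have hlC : 100 + C ≤ l := hl
  have he1 : 100 * l ≤ e := by
    calc 100 * l ≤ (100 + C) * l ^ 2 := by nlinarith
      _ ≤ e := hle
  have he100 : 10000 ≤ e := by linarith
  have he2 : (100 + C) * 1 ≤ e := by nlinarith
  have hse : 100 * e ≤ s := by
    calc 100 * e ≤ (100 + C) * e ^ 4 := by
          have : e ≤ e ^ 4 := by
            calc e = e * 1 := by ring
              _ ≤ e * e ^ 3 := by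
                apply mul_le_mul_of_nonneg_left _ (by linarith)
                exact one_le_pow₀ (by linarith)
              _ = e ^ 4 := by ring
          nlinarith
      _ ≤ s := hes
  have hs1 : 1000000 ≤ s := by linarith
  have hu0 : (0 : ℝ) < s / e := by positivity
  set u : ℝ := s / e with hudef
  have hu1 : 1 ≤ u := by
    rw [hudef, le_div_iff₀ (by linarith)]
    linarith
  have hlogu : Real.log u = e / 2 - l := by
    rw [hudef, Real.log_div (by linarith) (by linarith), hlogs]
  -- w
  have hwle : ((wn x : ℕ) : ℝ) ≤ s ^ 2 := by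
    unfold wn
    rw [hlogx]
    exact Nat.floor_le (by positivity)
  have hwge : s ^ 2 - 1 ≤ ((wn x : ℕ) : ℝ) := by
    unfold wn
    rw [hlogx]
    have := Nat.lt_floor_add_one (s ^ 2)
    linarith
  have hw3 : 3 ≤ wn x := by
    have : (3 : ℝ) ≤ ((wn x : ℕ) : ℝ) := by nlinarith
    exact_mod_cast this
  set w := wn x with hw
  have hlogw0 : 0 < Real.log w := Real.log_pos (by exact_mod_cast (by omega : 1 < w))
  have hllw : Real.log (Real.log w) ≤ l := by
    rw [hldef]
    apply Real.log_le_log hlogw0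
    rw [he]
    unfold el
    rw [hlogx]
    exact Real.log_le_log (by exact_mod_cast (by omega : 0 < w)) hwle
  -- N
  set N := ⌊2 * x⌋₊ with hN
  have hNle : (N : ℝ) ≤ 2 * x := Nat.floor_le (by linarith)
  have hsx : s ^ 2 ≤ x := by
    rw [hxe]
    have := Real.add_one_le_exp (s ^ 2)
    rw [← hs] at *
    linarith
  have hwN : w ≤ N := by
    rw [hN]
    apply Nat.le_floor
    linarith
  have hN3 : 3 ≤ N := hw3.trans hwN
  have hlogN0 : 0 < Real.log N := Real.log_pos (by exact_mod_cast (by omega : 1 < N))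
  have hllN : Real.log (Real.log N) ≤ e + 1 := by
    have h1 : Real.log N ≤ s ^ 2 * Real.exp 1 := by
      calc Real.log N ≤ Real.log (2 * x) :=
            Real.log_le_log (by exact_mod_cast (by omega : 0 < N)) hNle
        _ = Real.log 2 + s ^ 2 := by rw [Real.log_mul (by norm_num) (by linarith), hlogx]
        _ ≤ s ^ 2 * Real.exp 1 := by
            have h2 := Real.exp_one_gt_d9
            have h3 := Real.log_two_lt_d9
            nlinarith
    calc Real.log (Real.log N) ≤ Real.log (s ^ 2 * Real.exp 1) := Real.log_le_log hlogN0 h1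
      _ = e + 1 := by
          rw [Real.log_mul (by positivity) (by positivity), Real.log_exp, he]
          unfold el
          rw [hlogx]
  have h2u : 2 * u ≤ w := by
    have h3 : u ≤ s := by
      rw [hudef]
      exact div_le_self (by linarith) (by linarith)
    nlinarith
  have hEPx := hEP N w u (by omega) hwN hu0.le h2u
  have hM1 := hC w hw3
  have hM2 : ∑ p ∈ (PN N).filter (fun p => w < p), (1 : ℝ) / p ≤ e + 1 + C := by
    calc ∑ p ∈ (PN N).filter (fun p => w < p), (1 : ℝ) / p ≤ ∑ p ∈ PN N, (1 : ℝ) / p :=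
          Finset.sum_le_sum_of_subset_of_nonneg (Finset.filter_subset _ _)
            fun _ _ _ => by positivity
      _ ≤ Real.log (Real.log N) + C := hC N hN3
      _ ≤ e + 1 + C := by linarith
  have huw : u ^ 2 / w ≤ 1 := by
    rw [div_le_one (by exact_mod_cast (by omega : 0 < w))]
    have h3 : u ≤ s / 2 := by
      rw [hudef]
      exact div_le_div_of_nonneg_left (by linarith) (by norm_num) (by linarith)
    nlinarith
  have hn1 : 4 * s ≤ (n1 x : ℝ) := by
    unfold n1
    exact Nat.le_ceil _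
  -- the power of 1/u
  have hpow : (1 / u) ^ n1 x ≤ Real.exp (-(4 * s * (e / 2 - l))) := by
    have h3 : (1 / u) ^ n1 x = Real.exp (-((n1 x : ℝ) * Real.log u)) := by
      rw [Real.exp_neg, Real.exp_nat_mul, Real.exp_log hu0, one_div, inv_pow]
    rw [h3]
    apply Real.exp_le_exp.mpr
    rw [hlogu]
    have h4 : 0 ≤ e / 2 - l := by linarith
    nlinarith
  have hsum : ∑ T ∈ (Icc 1 N).filter (fun T => n1 x ≤ Om w T), (1 : ℝ) / (T : ℝ) ≤
      (1 / u) ^ n1 x * ∑ n ∈ Icc 1 N, u ^ Om w n / (n : ℝ) := by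
    rw [Finset.mul_sum]
    refine le_trans (Finset.sum_le_sum fun T hT => ?_)
      (Finset.sum_le_sum_of_subset_of_nonneg (Finset.filter_subset (fun T => n1 x ≤ Om w T) _)
        fun _ _ _ => by positivity)
    rw [Finset.mem_filter] at hT
    have h5 : (1 : ℝ) ≤ (1 / u) ^ n1 x * u ^ Om w T := by
      obtain ⟨j, hj⟩ := Nat.exists_eq_add_of_le hT.2
      rw [hj, pow_add, ← mul_assoc, ← mul_pow, one_div_mul_cancel hu0.ne', one_pow, one_mul]
      exact one_le_pow₀ hu1
    have hT0 : (0 : ℝ) ≤ T := Nat.cast_nonneg _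
    calc (1 : ℝ) / T ≤ ((1 / u) ^ n1 x * u ^ Om w T) / T := div_le_div_of_nonneg_right h5 hT0
      _ = _ := by ring
  calc ∑ T ∈ (Icc 1 N).filter (fun T => n1 x ≤ Om w T), (1 : ℝ) / (T : ℝ)
      ≤ (1 / u) ^ n1 x * ∑ n ∈ Icc 1 N, u ^ Om w n / (n : ℝ) := hsum
    _ ≤ Real.exp (-(4 * s * (e / 2 - l))) * Real.exp (∑ p ∈ PN w, (1 : ℝ) / p +
        u * ∑ p ∈ (PN N).filter (fun p => w < p), (1 : ℝ) / p + 1 + u ^ 2 / w) :=
        mul_le_mul hpow hEPx (Finset.sum_nonneg fun _ _ => by positivity) (Real.exp_pos _).le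
    _ ≤ Real.exp (-(3 / 2) * (s * e)) := by
        rw [← Real.exp_add]
        apply Real.exp_le_exp.mpr
        have h6 : u * ∑ p ∈ (PN N).filter (fun p => w < p), (1 : ℝ) / p ≤ s + s * (1 + C) / e := by
          calc u * ∑ p ∈ (PN N).filter (fun p => w < p), (1 : ℝ) / p ≤ u * (e + 1 + C) :=
                mul_le_mul_of_nonneg_left hM2 hu0.le
            _ = s + s * (1 + C) / e := by
                rw [hudef]
                field_simp
                ring
        have h7 : s * (1 + C) / e ≤ s := by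
          rw [div_le_iff₀ (by linarith)]
          nlinarith
        have h8 : s * (100 * l) ≤ s * e := mul_le_mul_of_nonneg_left he1 hs0.le
        have h9 : 10000 * s ≤ e * s := mul_le_mul_of_nonneg_right he100 hs0.le
        have h10 : l ≤ s := by linarith
        nlinarith

end Pool.Agent.H84.NO
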