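import Pool.Agent.H26.NO.Targets

/-!
# MP_0cd084_nt, board nok_modules, row UP: the upper bound
-/

set_option autoImplicit false

open Finset

namespace Pool.Agent.H84.NO

open Pool.Agent.H26.NO
open Pool.Agent.H73.NK (SPM fm)

theorem pf_UP (hAS : T_AS) (hSR : T_SR) (hWB : T_WB) (hVB : T_VB) (hUB : T_UB) (hC1 : T_C1)
    (hC2 : T_C2) : T_UP := by
  classical
  obtain ⟨x₁, hx₁⟩ := hAS 100
  obtain ⟨x₂, hx₂⟩ := hWB
  obtain ⟨x₃, hx₃⟩ := hVB
  obtain ⟨x₄, hx₄⟩ := hUB
  refine ⟨max (max x₁ x₂) (max x₃ x₄), fun x hx => ?_⟩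
  have a1 : x₁ ≤ x := (le_max_left _ _).trans ((le_max_left _ _).trans hx)
  have a2 : x₂ ≤ x := (le_max_right _ _).trans ((le_max_left _ _).trans hx)
  have a3 : x₃ ≤ x := (le_max_left _ _).trans ((le_max_right _ _).trans hx)
  have a4 : x₄ ≤ x := (le_max_right _ _).trans ((le_max_right _ _).trans hx)
  obtain ⟨hKx, hl, hle, hes, hs0, hs2, hlogs, hxe, -, hg, hgs⟩ := hx₁ x a1
  have W := hx₂ x a2
  have V := hx₃ x a3
  have U := hx₄ x a4
  set s := sx x with hs
  set e := el x with he
  set l := Real.log e with hldef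
  set g := gx x with hgdef
  have hx1 : (100 : ℝ) ≤ x := hKx
  have he1 : 10000 ≤ e := by nlinarith
  have hs1 : 10000 ≤ s := by
    have : e ≤ e ^ 4 := by
      calc e = e * 1 := by ring
        _ ≤ e * e ^ 3 := by
          apply mul_le_mul_of_nonneg_left _ (by linarith)
          exact one_le_pow₀ (by linarith)
        _ = e ^ 4 := by ring
    nlinarith
  have hB : Bx x = Real.exp (s * e) := rfl
  have hB1 : (1 : ℝ) ≤ Bx x := by
    rw [hB]
    exact Real.one_le_exp (by positivity)
  have c1 := hC1 x (Bx x) (Real.exp (5 * g)) (Real.exp (-(3 / 2) * (s * e))) (wn x) (n1 x)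
    (by linarith) hB1 (Real.exp_pos _).le (Real.exp_pos _).le W U
  have c2 := hC2 x (Bx x) (Real.exp (5 * g)) (Real.exp (60 * g)) (wn x) (n1 x)
    (by linarith) hB1 (Real.exp_pos _).le (Real.exp_pos _).le W V
  set S := (Icc 2 ⌊x⌋₊).filter (fun k => Real.exp (68 * g) < ((SPM k).ncard : ℝ)) with hS
  set S1 := (Icc 2 ⌊x⌋₊).filter (fun k => ∃ m ∈ Sl k, n1 x ≤ Om (wn x) (Tp (Bx x) m)) with hS1
  -- first part
  have hN : (Nat.log 2 ⌊2 * x⌋₊ : ℝ) ≤ 2 * (s ^ 2 + 1) := by
    have h1 : (1 : ℝ) < ⌊2 * x⌋₊ := by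
      have : (2 : ℕ) ≤ ⌊2 * x⌋₊ := Nat.le_floor (by push_cast; linarith)
      have : (2 : ℝ) ≤ ⌊2 * x⌋₊ := by exact_mod_cast this
      linarith
    have h2 := Real.natLog_le_logb ⌊2 * x⌋₊ 2
    have h3 : Real.log ⌊2 * x⌋₊ ≤ s ^ 2 + 1 := by
      calc Real.log ⌊2 * x⌋₊ ≤ Real.log (2 * x) :=
            Real.log_le_log (by linarith) (Nat.floor_le (by linarith))
        _ = Real.log 2 + s ^ 2 := by rw [Real.log_mul (by norm_num) (by linarith), hs2]
        _ ≤ s ^ 2 + 1 := by
            have := Real.log_two_lt_d9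
            linarith
    refine h2.trans ?_
    unfold Real.logb
    have h4 := Real.log_two_gt_d9
    push_cast
    rw [div_le_iff₀ (by linarith)]
    nlinarith
  have hp1 : (S1.card : ℝ) ≤ x * Real.exp (-g) / 2 := by
    refine c1.trans ?_
    have h1 : Bx x * (Nat.log 2 ⌊2 * x⌋₊ : ℝ) + 1 ≤ Real.exp (s * e) * (2 * s ^ 2 + 3) := by
      rw [hB] at hB1 ⊢
      have : Real.exp (s * e) * (Nat.log 2 ⌊2 * x⌋₊ : ℝ) ≤
          Real.exp (s * e) * (2 * (s ^ 2 + 1)) :=
        mul_le_mul_of_nonneg_left hN (Real.exp_pos _).le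
      linarith
    have h2 : 4 * (2 * s ^ 2 + 3) ≤ Real.exp s := by
      have h3 : (s / 4) ^ 4 ≤ Real.exp s := by
        have h4 : s / 4 ≤ Real.exp (s / 4) := by
          have := Real.add_one_le_exp (s / 4)
          linarith
        calc (s / 4) ^ 4 ≤ Real.exp (s / 4) ^ 4 := pow_le_pow_left₀ (by linarith) h4 4
          _ = Real.exp s := by
            rw [← Real.exp_nat_mul]
            congr 1
            push_cast
            ring
      have h6 : (100000000 : ℝ) ≤ s ^ 2 := by nlinarith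
      have h5 : 100000000 * s ^ 2 ≤ s ^ 2 * s ^ 2 := mul_le_mul_of_nonneg_right h6 (by positivity)
      have h7 : (s / 4) ^ 4 = s ^ 2 * s ^ 2 / 256 := by ring
      rw [h7] at h3
      linarith
    have h6 : 6 * g + s ≤ s * e / 2 := by nlinarith
    calc 2 * x * Real.exp (5 * g) * Real.exp (-(3 / 2) * (s * e)) *
          (Bx x * (Nat.log 2 ⌊2 * x⌋₊ : ℝ) + 1)
        ≤ 2 * x * Real.exp (5 * g) * Real.exp (-(3 / 2) * (s * e)) *
          (Real.exp (s * e) * (2 * s ^ 2 + 3)) := by
          apply mul_le_mul_of_nonneg_left h1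
          positivity
      _ = x * (Real.exp (5 * g) * Real.exp (-(3 / 2) * (s * e)) * Real.exp (s * e)) *
          (4 * (2 * s ^ 2 + 3)) / 2 := by ring
      _ ≤ x * (Real.exp (5 * g) * Real.exp (-(3 / 2) * (s * e)) * Real.exp (s * e)) *
          Real.exp s / 2 := by
          apply div_le_div_of_nonneg_right _ (by norm_num)
          apply mul_le_mul_of_nonneg_left h2
          have : 0 ≤ x := by linarith
          positivity
      _ = x * Real.exp (5 * g + (-(3 / 2) * (s * e)) + s * e + s) / 2 := by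
          rw [Real.exp_add, Real.exp_add, Real.exp_add]
          ring
      _ ≤ x * Real.exp (-g) / 2 := by
          apply div_le_div_of_nonneg_right _ (by norm_num)
          apply mul_le_mul_of_nonneg_left _ (by linarith)
          apply Real.exp_le_exp.mpr
          linarith
  -- second part
  have hp2 : ((S \ S1).card : ℝ) * Real.exp (68 * g) ≤ 2 * x * Real.exp (5 * g) * Real.exp (60 * g) := by
    refine le_trans ?_ c2
    have h1 : ∀ k ∈ S \ S1, Real.exp (68 * g) ≤
        (({m : Multiset ℕ | m ∈ Sl k ∧ Om (wn x) (Tp (Bx x) m) ≤ n1 x}.ncard : ℕ) : ℝ) := by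
      intro k hk
      rw [Finset.mem_sdiff] at hk
      obtain ⟨hk1, hk2⟩ := hk
      rw [hS, Finset.mem_filter, Finset.mem_Icc] at hk1
      rw [hS1, Finset.mem_filter, Finset.mem_Icc] at hk2
      have h2 : {m : Multiset ℕ | m ∈ Sl k ∧ Om (wn x) (Tp (Bx x) m) ≤ n1 x} = Sl k := by
        ext m
        constructor
        · exact fun h => h.1
        · intro hm
          refine ⟨hm, ?_⟩
          by_contra hc
          exact hk2 ⟨hk1.1, m, hm, by omega⟩
      rw [h2]
      have h3 := (hSR k hk1.1.1).2.1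
      have h4 : ((SPM k).ncard : ℝ) ≤ ((Sl k).ncard : ℝ) := by exact_mod_cast h3
      linarith [hk1.2]
    calc ((S \ S1).card : ℝ) * Real.exp (68 * g) = ∑ _k ∈ S \ S1, Real.exp (68 * g) := by
          rw [Finset.sum_const, nsmul_eq_mul]
      _ ≤ ∑ k ∈ S \ S1,
          (({m : Multiset ℕ | m ∈ Sl k ∧ Om (wn x) (Tp (Bx x) m) ≤ n1 x}.ncard : ℕ) : ℝ) :=
          Finset.sum_le_sum h1
      _ ≤ _ := by
          apply Finset.sum_le_sum_of_subset_of_nonneg
          · exact Finset.sdiff_subset.trans (Finset.filter_subset _ _)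
          · intro _ _ _
            exact Nat.cast_nonneg _
  have hp3 : ((S \ S1).card : ℝ) ≤ x * Real.exp (-g) / 2 := by
    have h1 : 4 ≤ Real.exp (2 * g) := by
      have := Real.add_one_le_exp (2 * g)
      linarith
    have h2 : 2 * x * Real.exp (5 * g) * Real.exp (60 * g) =
        (2 * x * Real.exp (-(3 * g))) * Real.exp (68 * g) := by
      have : Real.exp (5 * g) * Real.exp (60 * g) = Real.exp (-(3 * g)) * Real.exp (68 * g) := by
        rw [← Real.exp_add, ← Real.exp_add]
        congr 1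
        ring
      calc 2 * x * Real.exp (5 * g) * Real.exp (60 * g)
          = 2 * x * (Real.exp (5 * g) * Real.exp (60 * g)) := by ring
        _ = _ := by rw [this]; ring
    rw [h2] at hp2
    have h3 : ((S \ S1).card : ℝ) ≤ 2 * x * Real.exp (-(3 * g)) :=
      le_of_mul_le_mul_right hp2 (Real.exp_pos _)
    refine h3.trans ?_
    have h4 : Real.exp (-g) = Real.exp (-(3 * g)) * Real.exp (2 * g) := by
      rw [← Real.exp_add]
      congr 1
      ring
    rw [h4]
    have h5 : Real.exp (-(3 * g)) * 4 ≤ Real.exp (-(3 * g)) * Real.exp (2 * g) :=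
      mul_le_mul_of_nonneg_left h1 (Real.exp_pos _).le
    have h6 : x * (Real.exp (-(3 * g)) * 4) ≤ x * (Real.exp (-(3 * g)) * Real.exp (2 * g)) :=
      mul_le_mul_of_nonneg_left h5 (by linarith)
    linarith
  have hcard : (S.card : ℝ) ≤ (S1.card : ℝ) + ((S \ S1).card : ℝ) := by
    have h1 : S ⊆ S1 ∪ (S \ S1) := by
      intro k hk
      rw [Finset.mem_union, Finset.mem_sdiff]
      by_cases h : k ∈ S1
      · exact Or.inl h
      · exact Or.inr ⟨hk, h⟩
    exact_mod_cast (Finset.card_le_card h1).trans (Finset.card_union_le _ _)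
  linarith

end Pool.Agent.H84.NO
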