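import Pool.Agent.H26.NO.Targets

/-!
# MP_0cd084_nt, board nok_modules, row VA: the logarithmic mean of `z ^ Om`
-/

set_option autoImplicit false

open Finset

namespace Pool.Agent.H84.NO

open Pool.Agent.H26.NO

theorem pf_VA (hAS : T_AS) (hMER : T_MER) (hEP : T_EP) : T_VA := by
  obtain ⟨C, hC0, hC⟩ := hMER
  obtain ⟨x₀, hx₀⟩ := hAS (100 + C + Real.exp (C + 10))
  refine ⟨x₀, fun x hx => ?_⟩
  obtain ⟨hKx, hl, hle, hes, hs0, hs2, hlogs, hxe, hge, hg, hgs⟩ := hx₀ x hx
  set s := sx x with hs
  set e := el x with he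
  set l := Real.log e with hldef
  set g := gx x with hgdef
  set K : ℝ := 100 + C + Real.exp (C + 10) with hK
  have hexp0 : 0 < Real.exp (C + 10) := Real.exp_pos _
  have hK100 : 100 ≤ K := by linarith
  have hl100 : 100 ≤ l := by linarith
  have he1 : K * l ≤ e := by
    calc K * l ≤ K * l ^ 2 := by
          apply mul_le_mul_of_nonneg_left _ (by linarith)
          nlinarith
      _ ≤ e := hle
  have he100 : 10000 ≤ e := by nlinarith
  have hse : K * e ≤ s := by
    calc K * e ≤ K * e ^ 4 := by
          have : e ≤ e ^ 4 := by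
            calc e = e * 1 := by ring
              _ ≤ e * e ^ 3 := by
                apply mul_le_mul_of_nonneg_left _ (by linarith)
                exact one_le_pow₀ (by linarith)
              _ = e ^ 4 := by ring
          exact mul_le_mul_of_nonneg_left this (by linarith)
      _ ≤ s := hes
  have hs1 : 1000000 ≤ s := by nlinarith
  have hx1 : (1 : ℝ) < x := by linarith
  have hlogx : Real.log x = s ^ 2 := hs2.symm
  have hle6 : 6 * l / e ≤ 1 / 2 := by
    rw [div_le_iff₀ (by linarith)]
    nlinarith
  set z : ℝ := 1 - 6 * l / e with hz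
  have hz0 : 0 ≤ z := by linarith
  have hz1 : z ≤ 1 := by
    have : 0 ≤ 6 * l / e := by positivity
    linarith
  -- w
  have hwle : ((wn x : ℕ) : ℝ) ≤ s ^ 2 := by
    unfold wn
    rw [hlogx]
    exact Nat.floor_le (by positivity)
  have hwge : s ^ 2 - 1 ≤ ((wn x : ℕ) : ℝ) := by
    unfold wn
    rw [hlogx]
    have := Nat.lt_floor_add_one (s ^ 2)
    linarith
  have hw3 : 3 ≤ wn x := by
    have : (3 : ℝ) ≤ ((wn x : ℕ) : ℝ) := by nlinarith
    exact_mod_cast this
  set w := wn x with hw
  have hlogw0 : 0 < Real.log w := Real.log_pos (by exact_mod_cast (by omega : 1 < w))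
  have hllw : Real.log (Real.log w) ≤ l := by
    rw [hldef]
    apply Real.log_le_log hlogw0
    rw [he]
    unfold el
    rw [hlogx]
    exact Real.log_le_log (by exact_mod_cast (by omega : 0 < w)) hwle
  -- N
  have hB : Bx x = Real.exp (s * e) := rfl
  set N := ⌊Bx x⌋₊ with hN
  have hNle : (N : ℝ) ≤ Real.exp (s * e) := by
    rw [hN, hB]
    exact Nat.floor_le (Real.exp_pos _).le
  have hwN : w ≤ N := by
    rw [hN, hB]
    apply Nat.le_floor
    refine hwle.trans ?_
    have h1 := Real.quadratic_le_exp_of_nonneg (show 0 ≤ s * e by positivity)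
    have h2 : s * 10000 ≤ s * e := mul_le_mul_of_nonneg_left he100 hs0.le
    have h3 : (s * 10000) ^ 2 ≤ (s * e) ^ 2 := pow_le_pow_left₀ (by linarith) h2 2
    have h4 : (s * 10000) ^ 2 = 100000000 * s ^ 2 := by ring
    have h5 : 0 ≤ s ^ 2 := sq_nonneg s
    linarith
  have hN3 : 3 ≤ N := hw3.trans hwN
  have hlogN0 : 0 < Real.log N := Real.log_pos (by exact_mod_cast (by omega : 1 < N))
  have hllN : Real.log (Real.log N) ≤ e / 2 + l := by
    have h1 : Real.log N ≤ s * e := by
      calc Real.log N ≤ Real.log (Real.exp (s * e)) :=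
            Real.log_le_log (by exact_mod_cast (by omega : 0 < N)) hNle
        _ = s * e := Real.log_exp _
    calc Real.log (Real.log N) ≤ Real.log (s * e) := Real.log_le_log hlogN0 h1
      _ = e / 2 + l := by
          rw [Real.log_mul (by linarith) (by linarith), hlogs]
  have h2u : 2 * z ≤ w := by
    have : (3 : ℝ) ≤ w := by exact_mod_cast hw3
    linarith
  have hEPx := hEP N w z (by omega) hwN hz0 h2u
  refine hEPx.trans ?_
  have hM1 := hC w hw3
  have hM2 := hC N hN3
  -- split the second sum
  have hsplit : ∑ p ∈ PN N, (1 : ℝ) / p = ∑ p ∈ PN w, (1 : ℝ) / p +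
      ∑ p ∈ (PN N).filter (fun p => w < p), (1 : ℝ) / p := by
    rw [← Finset.sum_filter_add_sum_filter_not (PN N) (fun p => w < p)]
    rw [add_comm]
    congr 1
    apply Finset.sum_congr _ fun _ _ => rfl
    ext p
    unfold PN
    simp only [Finset.mem_filter, Finset.mem_Icc]
    constructor
    · rintro ⟨⟨⟨h1, h2⟩, h3⟩, h4⟩
      exact ⟨⟨h1, by omega⟩, h3⟩
    · rintro ⟨⟨h1, h2⟩, h3⟩
      exact ⟨⟨⟨h1, by omega⟩, h3⟩, by omega⟩
  set P1 := ∑ p ∈ PN w, (1 : ℝ) / p with hP1
  set P2 := ∑ p ∈ (PN N).filter (fun p => w < p), (1 : ℝ) / p with hP2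
  have hzw : z ^ 2 / w ≤ 1 := by
    rw [div_le_one (by exact_mod_cast (by omega : 0 < w))]
    have : (3 : ℝ) ≤ w := by exact_mod_cast hw3
    nlinarith
  have hexpo : P1 + z * P2 + 1 + z ^ 2 / w ≤ e / 2 - 2 * l + (C + 4) := by
    have h1 : P1 + z * P2 = (1 - z) * P1 + z * (P1 + P2) := by ring
    have h2 : (1 - z) * P1 ≤ (1 - z) * (l + C) :=
      mul_le_mul_of_nonneg_left (by linarith) (by linarith)
    have h3 : z * (P1 + P2) ≤ z * (e / 2 + l + C) := by
      apply mul_le_mul_of_nonneg_left _ hz0
      rw [← hsplit]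
      linarith
    have h4 : (1 - z) * l ≤ 1 := by
      rw [hz]
      have : (1 - (1 - 6 * l / e)) * l = 6 * l ^ 2 / e := by
        field_simp
        ring
      rw [this, div_le_one (by linarith)]
      nlinarith
    have h5 : z * (e / 2) = e / 2 - 3 * l := by
      rw [hz]
      have : e ≠ 0 := by linarith
      field_simp
      ring
    have h6 : (1 - z) * l = l - z * l := by ring
    have h7 : (1 - z) * (l + C) = (1 - z) * l + C - z * C := by ring
    have h8 : z * (e / 2 + l + C) = z * (e / 2) + z * l + z * C := by ring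
    have h9 : z * l ≤ 1 * l := mul_le_mul_of_nonneg_right hz1 (by linarith)
    rw [h1]
    rw [h7] at h2
    rw [h8, h5] at h3
    linarith
  calc Real.exp (P1 + z * P2 + 1 + z ^ 2 / w) ≤ Real.exp (e / 2 - 2 * l + (C + 4)) :=
        Real.exp_le_exp.mpr hexpo
    _ = s / e ^ 2 * Real.exp (C + 4) := by
        rw [Real.exp_add, Real.exp_sub]
        congr 1
        have h1 : Real.exp (e / 2) = s := by
          rw [← hlogs, Real.exp_log hs0]
        have h2 : Real.exp (2 * l) = e ^ 2 := by
          rw [two_mul, Real.exp_add, hldef, Real.exp_log (by linarith)]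
          ring
        rw [h1, h2]
    _ ≤ g := by
        have h1 : g = s * l / e := by
          rw [eq_div_iff (by linarith)]
          exact hge
        rw [h1, div_mul_eq_mul_div, div_le_div_iff₀ (by positivity) (by linarith)]
        have h2 : Real.exp (C + 4) ≤ l * e := by
          have h3 : Real.exp (C + 4) ≤ Real.exp (C + 10) := Real.exp_le_exp.mpr (by linarith)
          have h7 : 1 * e ≤ l * e := mul_le_mul_of_nonneg_right (by linarith) (by linarith)
          have h8 : K * 1 ≤ K * l := mul_le_mul_of_nonneg_left (by linarith) (by linarith)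
          linarith
        have h4 : s * e * Real.exp (C + 4) ≤ s * e * (l * e) :=
          mul_le_mul_of_nonneg_left h2 (by positivity)
        have h5 : s * Real.exp (C + 4) * e = s * e * Real.exp (C + 4) := by ring
        have h6 : s * l * e ^ 2 = s * e * (l * e) := by ring
        rw [h5, h6]
        exact h4

end Pool.Agent.H84.NO
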